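import Pool.Agent.Lib.MP_6bc78b_nt.MS.P2.Iface

/-! Project MS, Part II, module DEC: the large conductors, all families. -/

set_option autoImplicit false

open Filter Topology ArithmeticFunction

namespace Pool.Agent.Lib.MP_6bc78b_nt.MS.P2.H84

open Pool.Agent.Lib.MP_6bc78b_nt.LS (primSum primSum_mono primSum_nonneg primSum_add)

/-- Families supported on `n ≤ T ^ κ`. -/
def Short (κ : ℝ) (a : ℝ → ArithmeticFunction ℝ) : Prop :=
  ∀ T : ℝ, 3 ≤ T → ∀ n : ℕ, a T n ≠ 0 → (n : ℝ) ≤ T ^ κ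

lemma exists_of_mul_ne {a b : ArithmeticFunction ℝ} {n : ℕ} (h : (a * b) n ≠ 0) :
    ∃ d e : ℕ, d * e = n ∧ a d ≠ 0 ∧ b e ≠ 0 := by
  rw [ArithmeticFunction.mul_apply] at h
  obtain ⟨x, hx, hx2⟩ := Finset.exists_ne_zero_of_sum_ne_zero h
  refine ⟨x.1, x.2, (Nat.mem_divisorsAntidiagonal.1 hx).1, ?_, ?_⟩
  · exact left_ne_zero_of_mul hx2
  · exact right_ne_zero_of_mul hx2

lemma pos_of_ne {a : ArithmeticFunction ℝ} {n : ℕ} (h : a n ≠ 0) : 1 ≤ n := by
  rcases Nat.eq_zero_or_pos n with h0 | h0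
  · exact absurd (by rw [h0]; exact a.map_zero) h
  · exact h0

lemma lo_ne {z : ℝ} {a : ArithmeticFunction ℝ} {n : ℕ} (h : lo z a n ≠ 0) :
    (n : ℝ) ≤ z ∧ a n ≠ 0 := by
  by_cases h1 : (n : ℝ) ≤ z
  · refine ⟨h1, ?_⟩
    simpa [lo, h1] using h
  · exact absurd (by simp [lo, h1]) h

lemma hi_ne {z : ℝ} {a : ArithmeticFunction ℝ} {n : ℕ} (h : hi z a n ≠ 0) :
    z < (n : ℝ) ∧ a n ≠ 0 := by
  by_cases h1 : z < (n : ℝ)
  · refine ⟨h1, ?_⟩
    simpa [hi, h1] using h
  · exact absurd (by simp [hi, h1]) h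

lemma lo_add_hi (z : ℝ) (a : ArithmeticFunction ℝ) : lo z a + hi z a = a := by
  ext n
  by_cases h1 : (n : ℝ) ≤ z
  · simp [lo, hi, h1, not_lt.2 h1]
  · simp [lo, hi, h1, not_le.1 h1]

lemma Short.mul {κ κ' : ℝ} {a b : ℝ → ArithmeticFunction ℝ} (ha : Short κ a) (hb : Short κ' b) :
    Short (κ + κ') (fun T => a T * b T) := by
  intro T hT n hn
  obtain ⟨d, e, hde, hd, he⟩ := exists_of_mul_ne hn
  have h1 := ha T hT d hd
  have h2 := hb T hT e he
  rw [Real.rpow_add (by linarith), ← hde, Nat.cast_mul]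
  exact mul_le_mul h1 h2 (Nat.cast_nonneg _) (by positivity)

lemma short_lo (κ : ℝ) (a : ℝ → ArithmeticFunction ℝ) : Short κ (fun T => lo (T ^ κ) (a T)) :=
  fun _ _ _ hn => (lo_ne hn).1

/-! ### additivity -/

lemma QQ_le {j : ℕ} {T : ℝ} {α β γ : ArithmeticFunction ℝ}
    (h : ∀ (m d q : ℕ) (ψ : DirichletCharacter ℂ q),
      ‖VV j T γ m d ψ‖ ≤ ‖VV j T α m d ψ‖ + ‖VV j T β m d ψ‖) (s d : ℕ) (S : Finset ℕ) :
    QQ j T γ s d S ≤ QQ j T α s d S + QQ j T β s d S := by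
  unfold QQ
  rw [← Finset.sum_add_distrib]
  refine Finset.sum_le_sum (fun q _ => ?_)
  rw [← mul_add, ← primSum_add]
  exact mul_le_mul_of_nonneg_left (primSum_mono q _ _ (fun χ _ => h _ _ _ _)) (by positivity)

lemma QQ_nonneg (j : ℕ) (T : ℝ) (α : ArithmeticFunction ℝ) (s d : ℕ) (S : Finset ℕ) :
    0 ≤ QQ j T α s d S := by
  unfold QQ
  exact Finset.sum_nonneg (fun q _ => mul_nonneg (by positivity)
    (primSum_nonneg q _ (fun _ => norm_nonneg _)))

lemma EE_le {th : ℝ} {j : ℕ} {T : ℝ} {α β γ : ArithmeticFunction ℝ}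
    (h : ∀ (m d q : ℕ) (ψ : DirichletCharacter ℂ q),
      ‖VV j T γ m d ψ‖ ≤ ‖VV j T α m d ψ‖ + ‖VV j T β m d ψ‖) (a b : ℕ) :
    EE th j T a b γ ≤ EE th j T a b α + EE th j T a b β := by
  unfold EE
  rw [← Finset.sum_add_distrib]
  refine Finset.sum_le_sum (fun s _ => ?_)
  rw [← mul_add]
  refine mul_le_mul_of_nonneg_left ?_ (by positivity)
  rw [← Finset.sum_add_distrib]
  refine Finset.sum_le_sum (fun d _ => ?_)
  rw [← mul_add]
  exact mul_le_mul_of_nonneg_left (QQ_le h _ _ _) (by positivity)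

lemma EE_nonneg (th : ℝ) (j : ℕ) (T : ℝ) (α : ArithmeticFunction ℝ) (a b : ℕ) :
    0 ≤ EE th j T a b α := by
  unfold EE
  refine Finset.sum_nonneg (fun s _ => mul_nonneg (by positivity) ?_)
  exact Finset.sum_nonneg (fun d _ => mul_nonneg (by positivity) (QQ_nonneg _ _ _ _ _ _))

lemma Est_of_le {th : ℝ} {j : ℕ} {α β γ : ℝ → ArithmeticFunction ℝ} (hα : Est th j α)
    (hβ : Est th j β) (h : ∀ (T : ℝ) (m d q : ℕ) (ψ : DirichletCharacter ℂ q),
      ‖VV j T (γ T) m d ψ‖ ≤ ‖VV j T (α T) m d ψ‖ + ‖VV j T (β T) m d ψ‖) : Est th j γ := by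
  obtain ⟨A1, h1⟩ := hα
  obtain ⟨A2, h2⟩ := hβ
  refine ⟨max A1 A2, fun A hA => ?_⟩
  have h3 := (h1 A (le_trans (le_max_left _ _) hA)).add (h2 A (le_trans (le_max_right _ _) hA))
  rw [add_zero] at h3
  refine squeeze_zero' ?_ ?_ h3
  · filter_upwards [eventually_gt_atTop 0] with T hT
    exact div_nonneg (EE_nonneg _ _ _ _ _ _) hT.le
  · filter_upwards [eventually_gt_atTop 0] with T hT
    rw [← add_div]
    exact div_le_div_of_nonneg_right (EE_le (h T) _ _) hT.le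

lemma VV_add (j : ℕ) (T : ℝ) (α β : ArithmeticFunction ℝ) (m d : ℕ) {q : ℕ}
    (ψ : DirichletCharacter ℂ q) :
    VV j T (α + β) m d ψ = VV j T α m d ψ + VV j T β m d ψ := by
  unfold VV
  rw [← Finset.sum_add_distrib]
  refine Finset.sum_congr rfl (fun n _ => ?_)
  rw [ArithmeticFunction.add_apply]
  push_cast
  ring

lemma VV_sub (j : ℕ) (T : ℝ) (α β : ArithmeticFunction ℝ) (m d : ℕ) {q : ℕ}
    (ψ : DirichletCharacter ℂ q) :
    VV j T (α - β) m d ψ = VV j T α m d ψ - VV j T β m d ψ := by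
  have h := VV_add j T (α - β) β m d ψ
  rw [sub_add_cancel] at h
  rw [h]; ring

lemma est_add {th : ℝ} {j : ℕ} {α β : ℝ → ArithmeticFunction ℝ} (hα : Est th j α)
    (hβ : Est th j β) : Est th j (fun T => α T + β T) :=
  Est_of_le hα hβ (fun T m d q ψ => by
    rw [VV_add]; exact norm_add_le _ _)

lemma est_sub {th : ℝ} {j : ℕ} {α β : ℝ → ArithmeticFunction ℝ} (hα : Est th j α)
    (hβ : Est th j β) : Est th j (fun T => α T - β T) :=
  Est_of_le hα hβ (fun T m d q ψ => by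
    rw [VV_sub]; exact norm_sub_le _ _)

lemma est_congr {th : ℝ} {j : ℕ} {α β : ℝ → ArithmeticFunction ℝ} (hα : Est th j α)
    (h : ∀ T, α T = β T) : Est th j β := by
  have : α = β := funext h
  rwa [← this]

/-! ### good families -/

/-- `u * a` is negligible for all `u` supported on `n ≤ T ^ ze`. -/
def Good (th ze : ℝ) (j : ℕ) (a : ℝ → ArithmeticFunction ℝ) : Prop :=
  DB a ∧ ∀ u : ℝ → ArithmeticFunction ℝ, DB u → Short ze u → Est th j (fun T => u T * a T)

lemma Good.congr' {th ze : ℝ} {j : ℕ} {a b : ℝ → ArithmeticFunction ℝ} (ha : Good th ze j a)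
    (h : ∀ T, a T = b T) : Good th ze j b := by
  have : a = b := funext h
  rwa [← this]

lemma good_one (hD : DbcStatement) (hE : EdgStatement) {th ze : ℝ} (h0 : 0 < th) (h1 : th < 1 / 2)
    (hz : ze < 1) (j : ℕ) : Good th ze j (fun _ => 1) := by
  refine ⟨hD.2.2.2.2.1, fun u hu hs => ?_⟩
  exact est_congr (hE th ze h0 h1 j u hu (Or.inl ⟨hz, hs⟩)) (fun T => by rw [mul_one])

lemma good_add (hD : DbcStatement) {th ze : ℝ} {j : ℕ} {a b : ℝ → ArithmeticFunction ℝ}
    (ha : Good th ze j a) (hb : Good th ze j b) : Good th ze j (fun T => a T + b T) := by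
  refine ⟨hD.1 a b ha.1 hb.1, fun u hu hs => ?_⟩
  exact est_congr (est_add (ha.2 u hu hs) (hb.2 u hu hs)) (fun T => by ring)

lemma good_sub (hD : DbcStatement) {th ze : ℝ} {j : ℕ} {a b : ℝ → ArithmeticFunction ℝ}
    (ha : Good th ze j a) (hb : Good th ze j b) : Good th ze j (fun T => a T - b T) := by
  refine ⟨hD.2.1 a b ha.1 hb.1, fun u hu hs => ?_⟩
  exact est_congr (est_sub (ha.2 u hu hs) (hb.2 u hu hs)) (fun T => by ring)

lemma good_short (hD : DbcStatement) (hB : BilStatement) {th ze κ : ℝ} (h0 : 0 < th)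
    (h1 : th < 1 / 2) (hz : th < ze) (hz2 : ze + ze < 1) (hk : κ < 1) {j : ℕ}
    {a s : ℝ → ArithmeticFunction ℝ} (ha : Good th ze j a) (hs : DB s) (hsk : Short κ s) :
    Good th ze j (fun T => s T * a T) := by
  obtain ⟨hDadd, hDsub, hDmul, hDlh, -⟩ := hD
  refine ⟨hDmul s a hs ha.1, fun u hu hsu => ?_⟩
  have hlo : DB (fun T => lo (T ^ ze) (s T)) := (hDlh (fun T => T ^ ze) s hs).1
  have hhi : DB (fun T => hi (T ^ ze) (s T)) := (hDlh (fun T => T ^ ze) s hs).2
  have e1 : Est th j (fun T => hi (T ^ ze) (s T) * (u T * a T)) := by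
    refine hB th ze κ h0 h1 hz hk j (fun T => hi (T ^ ze) (s T)) (fun T => u T * a T) hhi
      (hDmul u a hu ha.1) (fun T hT n hn => ?_)
    exact ⟨(hi_ne hn).1, hsk T hT n (hi_ne hn).2⟩
  have hw : DB (fun T => lo (T ^ ze) (s T) * u T) := hDmul _ u hlo hu
  have hws : Short (ze + ze) (fun T => lo (T ^ ze) (s T) * u T) := (short_lo ze s).mul hsu
  have e2 : Est th j (fun T => hi (T ^ ze) (lo (T ^ ze) (s T) * u T) * a T) := by
    refine hB th ze (ze + ze) h0 h1 hz hz2 j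
      (fun T => hi (T ^ ze) (lo (T ^ ze) (s T) * u T)) a
      (hDlh (fun T => T ^ ze) _ hw).2 ha.1 (fun T hT n hn => ?_)
    exact ⟨(hi_ne hn).1, hws T hT n (hi_ne hn).2⟩
  have e3 : Est th j (fun T => lo (T ^ ze) (lo (T ^ ze) (s T) * u T) * a T) :=
    ha.2 _ (hDlh (fun T => T ^ ze) _ hw).1 (short_lo ze _)
  refine est_congr (est_add e1 (est_add e2 e3)) (fun T => ?_)
  have h5 := lo_add_hi (T ^ ze) (s T)
  have h6 := lo_add_hi (T ^ ze) (lo (T ^ ze) (s T) * u T)
  calc hi (T ^ ze) (s T) * (u T * a T) + (hi (T ^ ze) (lo (T ^ ze) (s T) * u T) * a T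
        + lo (T ^ ze) (lo (T ^ ze) (s T) * u T) * a T)
      = hi (T ^ ze) (s T) * (u T * a T) + (lo (T ^ ze) (lo (T ^ ze) (s T) * u T)
        + hi (T ^ ze) (lo (T ^ ze) (s T) * u T)) * a T := by ring
    _ = hi (T ^ ze) (s T) * (u T * a T) + lo (T ^ ze) (s T) * u T * a T := by rw [h6]
    _ = (lo (T ^ ze) (s T) + hi (T ^ ze) (s T)) * (u T * a T) := by ring
    _ = u T * (s T * a T) := by rw [h5]; ring

lemma good_smooth (hD : DbcStatement) (hB : BilStatement) (hS : SmoStatement) {th ze xi : ℝ}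
    (h0 : 0 < th) (h1 : th < 1 / 2) (hz : th < ze) (hz2 : ze + ze < 1) (hx : 2 * th < xi)
    (hx1 : xi < 1) {j : ℕ} {a : ℝ → ArithmeticFunction ℝ} (ha : Good th ze j a)
    {h : ArithmeticFunction ℝ} (hh : h = one ∨ h = lg) (hDh : DB (fun _ => h)) :
    Good th ze j (fun T => h * a T) := by
  have hDmul := hD.2.2.1
  have hDlh := hD.2.2.2.1
  have hgs : Good th ze j (fun T => lo (T ^ xi) h * a T) :=
    good_short hD hB h0 h1 hz hz2 hx1 ha (hDlh (fun T => T ^ xi) (fun _ => h) hDh).1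
      (short_lo xi (fun _ => h))
  refine ⟨hDmul (fun _ => h) a hDh ha.1, fun u hu hsu => ?_⟩
  have e1 : Est th j (fun T => (u T * a T) * hi (T ^ xi) h) :=
    hS th xi h0 h1 hx j (fun T => u T * a T) (hDmul u a hu ha.1) h hh
  refine est_congr (est_add e1 (hgs.2 u hu hsu)) (fun T => ?_)
  have h5 := lo_add_hi (T ^ xi) h
  calc u T * a T * hi (T ^ xi) h + u T * (lo (T ^ xi) h * a T)
      = (lo (T ^ xi) h + hi (T ^ xi) h) * (u T * a T) := by ring
    _ = u T * (h * a T) := by rw [h5]; ring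

lemma good_tail (hD : DbcStatement) (hB : BilStatement) (hE : EdgStatement) {th ze xi : ℝ}
    (h0 : 0 < th) (h1 : th < 1 / 2) (hz : th < ze) (hx1 : xi < 1)
    (hxz : 1 + th < xi + ze) {j : ℕ} {b : ℝ → ArithmeticFunction ℝ} (hb : DB b) :
    Good th ze j (fun T => hi (T ^ ze) mu * (hi (T ^ ze) La * b T)) := by
  obtain ⟨hDadd, hDsub, hDmul, hDlh, hD1, hDone, hDlg, hDLa, hDmu, -⟩ := hD
  have hM : DB (fun T => hi (T ^ ze) mu) := (hDlh (fun T => T ^ ze) (fun _ => mu) hDmu).2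
  have hL : DB (fun T => hi (T ^ ze) La) := (hDlh (fun T => T ^ ze) (fun _ => La) hDLa).2
  have hLb : DB (fun T => hi (T ^ ze) La * b T) := hDmul _ b hL hb
  refine ⟨hDmul _ _ hM hLb, fun u hu hsu => ?_⟩
  have e1 : Est th j (fun T => lo (T ^ xi) (hi (T ^ ze) mu) * (u T * (hi (T ^ ze) La * b T))) := by
    refine hB th ze xi h0 h1 hz hx1 j (fun T => lo (T ^ xi) (hi (T ^ ze) mu))
      (fun T => u T * (hi (T ^ ze) La * b T)) (hDlh (fun T => T ^ xi) _ hM).1
      (hDmul u _ hu hLb) (fun T hT n hn => ?_)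
    exact ⟨(hi_ne (lo_ne hn).2).1, (lo_ne hn).1⟩
  have e2 : Est th j (fun T => hi (T ^ xi) (hi (T ^ ze) mu) *
      (u T * (hi (T ^ ze) La * b T))) := by
    refine hE th (xi + ze) h0 h1 j _ (hDmul _ _ (hDlh (fun T => T ^ xi) _ hM).2
      (hDmul u _ hu hLb)) (Or.inr ⟨hxz, fun T hT n hn => ?_⟩)
    obtain ⟨d, e, hde, hd, he⟩ := exists_of_mul_ne hn
    obtain ⟨f, g, hfg, hf, hg⟩ := exists_of_mul_ne he
    obtain ⟨k, l, hkl, hk, hl⟩ := exists_of_mul_ne hg
    have h2 : T ^ xi < (d : ℝ) := (hi_ne hd).1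
    have h3 : T ^ ze < (k : ℝ) := (hi_ne hk).1
    have hf1 : (1 : ℝ) ≤ f := by exact_mod_cast pos_of_ne hf
    have hl1 : (1 : ℝ) ≤ l := by exact_mod_cast pos_of_ne hl
    have hT0 : 0 < T := by linarith
    rw [Real.rpow_add hT0, ← hde, ← hfg, ← hkl]
    push_cast
    have hx0 : 0 < T ^ xi := Real.rpow_pos_of_pos hT0 _
    have hz0 : 0 < T ^ ze := Real.rpow_pos_of_pos hT0 _
    have h4 : T ^ xi * T ^ ze < (d : ℝ) * k := mul_lt_mul h2 h3.le hz0 (by positivity)
    have h5 : (d : ℝ) * k ≤ (d : ℝ) * ((f : ℝ) * ((k : ℝ) * l)) := by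
      have hk0 : (0 : ℝ) ≤ k := Nat.cast_nonneg _
      have hd0 : (0 : ℝ) ≤ d := Nat.cast_nonneg _
      refine mul_le_mul_of_nonneg_left ?_ hd0
      calc (k : ℝ) = 1 * (k * 1) := by ring
        _ ≤ (f : ℝ) * ((k : ℝ) * l) :=
          mul_le_mul hf1 (mul_le_mul_of_nonneg_left hl1 hk0) (by positivity) (by positivity)
    linarith
  refine est_congr (est_add e1 e2) (fun T => ?_)
  have h5 := lo_add_hi (T ^ xi) (hi (T ^ ze) mu)
  calc lo (T ^ xi) (hi (T ^ ze) mu) * (u T * (hi (T ^ ze) La * b T)) +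
      hi (T ^ xi) (hi (T ^ ze) mu) * (u T * (hi (T ^ ze) La * b T))
      = (lo (T ^ xi) (hi (T ^ ze) mu) + hi (T ^ xi) (hi (T ^ ze) mu)) *
        (u T * (hi (T ^ ze) La * b T)) := by ring
    _ = u T * (hi (T ^ ze) mu * (hi (T ^ ze) La * b T)) := by rw [h5]; ring

theorem dec (hD : DbcStatement) (hV : VauStatement) (hB : BilStatement) (hS : SmoStatement)
    (hE : EdgStatement) : DecStatement := by
  intro th lam c1 c2 h0 h1 hl0 hl1 α hα j
  obtain ⟨ze, hze⟩ : ∃ ze : ℝ, ze = (th + 1 / 2) / 2 := ⟨_, rfl⟩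
  obtain ⟨xi, hxi⟩ : ∃ xi : ℝ, xi = 7 / 8 + th / 4 := ⟨_, rfl⟩
  have hz : th < ze := by linarith
  have hz2 : ze + ze < 1 := by linarith
  have hx : 2 * th < xi := by linarith
  have hx1 : xi < 1 := by linarith
  have hxz : 1 + th < xi + ze := by linarith
  have hD' := hD
  obtain ⟨hDadd, hDsub, hDmul, hDlh, hD1, hDone, hDlg, hDLa, hDmu, hDbet, hDbb⟩ := hD'
  -- smooth factors
  have gone : ∀ a : ℝ → ArithmeticFunction ℝ, Good th ze j a →
      Good th ze j (fun T => one * a T) := fun a ha =>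
    good_smooth hD hB hS h0 h1 hz hz2 hx hx1 ha (Or.inl rfl) hDone
  have glg : ∀ a : ℝ → ArithmeticFunction ℝ, Good th ze j a →
      Good th ze j (fun T => lg * a T) := fun a ha =>
    good_smooth hD hB hS h0 h1 hz hz2 hx hx1 ha (Or.inr rfl) hDlg
  -- short factors
  have gsh : ∀ (κ : ℝ) (s a : ℝ → ArithmeticFunction ℝ), κ < 1 → DB s → Short κ s →
      Good th ze j a → Good th ze j (fun T => s T * a T) := fun κ s a hk hs hsk ha =>
    good_short hD hB h0 h1 hz hz2 hk ha hs hsk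
  have hloLa : DB (fun T => lo (T ^ ze) La) := (hDlh (fun T => T ^ ze) (fun _ => La) hDLa).1
  have hlomu : DB (fun T => lo (T ^ ze) mu) := (hDlh (fun T => T ^ ze) (fun _ => mu) hDmu).1
  have gLa : ∀ a : ℝ → ArithmeticFunction ℝ, Good th ze j a →
      Good th ze j (fun T => La * a T) := by
    intro a ha
    have t1 := gsh ze _ a (by linarith) hloLa (short_lo ze (fun _ => La)) ha
    have t2 := gsh ze _ _ (by linarith) hlomu (short_lo ze (fun _ => mu)) (glg a ha)
    have t3 := gsh ze _ _ (by linarith) hlomu (short_lo ze (fun _ => mu))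
      (gsh ze _ _ (by linarith) hloLa (short_lo ze (fun _ => La)) (gone a ha))
    have t4 : Good th ze j (fun T => hi (T ^ ze) mu * (hi (T ^ ze) La * (one * a T))) :=
      good_tail hD hB hE h0 h1 hz hx1 hxz (hDmul (fun _ => one) a hDone ha.1)
    refine (good_add hD (good_sub hD (good_add hD t1 t2) t3) t4).congr' (fun T => ?_)
    have hv := hV (T ^ ze)
    calc lo (T ^ ze) La * a T + lo (T ^ ze) mu * (lg * a T)
          - lo (T ^ ze) mu * (lo (T ^ ze) La * (one * a T))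
          + hi (T ^ ze) mu * (hi (T ^ ze) La * (one * a T))
        = (lo (T ^ ze) La + lo (T ^ ze) mu * lg - lo (T ^ ze) mu * lo (T ^ ze) La * one
          + hi (T ^ ze) mu * hi (T ^ ze) La * one) * a T := by ring
      _ = La * a T := by rw [← hv]
  have g1 : Good th ze j (fun _ => 1) := good_one hD hE h0 h1 (by linarith) j
  -- the general product
  obtain ⟨f, k1, k2, hf, hk1, hk2, hα⟩ := hα
  have main : ∀ c : ℝ → ArithmeticFunction ℝ, Good th ze j c →
      Good th ze j (fun T => f * (k1 * (k2 * c T))) := by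
    intro c hc
    have s2 : Good th ze j (fun T => k2 * c T) := by
      rcases hk2 with h | h | h
      · exact hc.congr' (fun T => by rw [h, one_mul])
      · rw [h]; exact gone c hc
      · rw [h]; exact glg c hc
    have s1 : Good th ze j (fun T => k1 * (k2 * c T)) := by
      rcases hk1 with h | h
      · rw [h]; exact gone _ s2
      · rw [h]; exact glg _ s2
    rcases hf with h | h
    · exact s1.congr' (fun T => by rw [h, one_mul])
    · rw [h]; exact gLa _ s1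
  have fin : ∀ c : ℝ → ArithmeticFunction ℝ, Good th ze j c →
      (∀ T, α T = f * k1 * k2 * c T) → Est th j α := by
    intro c hc hα'
    have hs1 : Short ze (fun _ => (1 : ArithmeticFunction ℝ)) := by
      intro T hT n hn
      have hn1 : n = 1 := by
        by_contra h
        exact hn (by simp [h])
      rw [hn1, Nat.cast_one]
      exact Real.one_le_rpow (by linarith) (by linarith)
    refine est_congr ((main c hc).2 (fun _ => 1) hD1 hs1) (fun T => ?_)
    rw [hα' T]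
    ring
  rcases hα with h | h | h
  · exact fin (fun _ => 1) g1 (fun T => by rw [h T, mul_one])
  · refine fin (bet th c1 c2) ?_ h
    refine (gsh th (bet th c1 c2) _ (by linarith) (hDbet th c1 c2 h0) ?_ g1).congr'
      (fun T => by rw [mul_one])
    intro T hT n hn
    by_contra hc
    exact hn (by simp [bet, betf, hc])
  · refine fin (bb lam) ?_ h
    refine (gsh lam (bb lam) _ hl1 (hDbb lam hl0) ?_ g1).congr' (fun T => by rw [mul_one])
    intro T hT n hn
    by_contra hc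
    exact hn (by simp [bb, bbf, hc])

end Pool.Agent.Lib.MP_6bc78b_nt.MS.P2.H84
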